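import Pool.Agent.Helper45.U4.St2

/-!
# Project U4 (MP_a1f43d_co), module EXF: there are no types
-/

set_option autoImplicit false

open Module Classical
open scoped LinearAlgebra.Projectivization

namespace Pool.Agent.Helper44.U4

open Pool.Agent.Helper45.U4 Pool.Agent.Helper53.PB

section
variable {F V : Type} [Field F] [AddCommGroup V] [Module F V]

/-- the coordinate `i` of the code `n` -/
private def cf (ω : F) (n i : ℕ) : F :=
  (if n.testBit i then (1 : F) else 0) + (if n.testBit (i + 6) then ω else 0)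

private theorem vv_eq (ω : F) (b : Fin 6 → V) (n : ℕ) :
    vv ω b n = cf ω n 0 • b 0 + cf ω n 1 • b 1 + cf ω n 2 • b 2 + cf ω n 3 • b 3 + cf ω n 4 • b 4 +
      cf ω n 5 • b 5 := by
  unfold vv
  rw [Fin.sum_univ_six]
  rfl

private theorem cf_zero (ω : F) {n : ℕ} (h : n &&& 195 = 0) : cf ω n 0 = 0 ∧ cf ω n 1 = 0 := by
  have key : ∀ i : ℕ, Nat.testBit 195 i = true → n.testBit i = false := by
    intro i hi
    have h1 : (n &&& 195).testBit i = false := by rw [h]; exact Nat.zero_testBit i
    rw [Nat.testBit_and, hi, Bool.and_true] at h1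
    exact h1
  have k0 := key 0 (by decide)
  have k1 := key 1 (by decide)
  have k6 := key 6 (by decide)
  have k7 := key 7 (by decide)
  unfold cf
  constructor
  · rw [show 0 + 6 = 6 from rfl, k0, k6]
    simp
  · rw [show 1 + 6 = 7 from rfl, k1, k7]
    simp

/-- the change of the coordinate along `b 0` -/
private def sh (ω : F) (m0 m1 m2 m3 : F) (n : ℕ) : F :=
  cf ω n 2 * m0 + cf ω n 3 * m1 + cf ω n 4 * m2 + cf ω n 5 * m3

private theorem vv_shift (ω : F) {b b' : Fin 6 → V} {m0 m1 m2 m3 : F} (h2 : b' 2 = b 2 + m0 • b 0)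
    (h3 : b' 3 = b 3 + m1 • b 0) (h4 : b' 4 = b 4 + m2 • b 0) (h5 : b' 5 = b 5 + m3 • b 0) {n : ℕ}
    (hn : n &&& 195 = 0) : vv ω b' n = vv ω b n + sh ω m0 m1 m2 m3 n • b 0 := by
  rw [vv_eq, vv_eq, (cf_zero ω hn).1, (cf_zero ω hn).2, h2, h3, h4, h5]
  unfold sh
  module

private theorem inO_shift {ω : F} {f : ℙ F V → ℤ} {b b' : Fin 6 → V} {m0 m1 m2 m3 : F} (h0 : b' 0 = b 0)
    (h2 : b' 2 = b 2 + m0 • b 0) (h3 : b' 3 = b 3 + m1 • b 0) (h4 : b' 4 = b 4 + m2 • b 0)
    (h5 : b' 5 = b 5 + m3 • b 0) {n : ℕ} (hn : InO ω b f n) : InO ω b' f n := by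
  obtain ⟨ha, hb, hc, c, hd⟩ := hn
  refine ⟨ha, hb, hc, c - sh ω m0 m1 m2 m3 n, ?_⟩
  have : vv ω b' n + (c - sh ω m0 m1 m2 m3 n) • b' 0 = vv ω b n + c • b 0 := by
    rw [vv_shift ω h2 h3 h4 h5 hb, h0]
    module
  rw [this]
  exact hd

private theorem inC_shift {ω : F} {f : ℙ F V → ℤ} {b b' : Fin 6 → V} {m0 m1 m2 m3 : F}
    (h2 : b' 2 = b 2 + m0 • b 0) (h3 : b' 3 = b 3 + m1 • b 0) (h4 : b' 4 = b 4 + m2 • b 0)
    (h5 : b' 5 = b 5 + m3 • b 0) {n : ℕ} (hn : n < 4096) (hn2 : n &&& 195 = 0) {c : F}
    (hc : IV f (vv ω b n + c • b 0)) (hs : sh ω m0 m1 m2 m3 n = c) : InC ω b' f n := by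
  refine ⟨hn, ?_⟩
  rw [vv_shift ω h2 h3 h4 h5 hn2, hs]
  exact hc

end

/-- **EXF** (no types). -/
theorem hEXF (h1 : StHF) (_h2 : StVEC) (h3 : StFRM) (h4 : StOVC) (h5 : StCFG) : StEXF := by
  intro F V _ _ _ _ _ _ φ f t X1 X2 D
  obtain ⟨⟨ω, hω⟩, _, _, hsmul, _, hsing, _, _⟩ := h1 φ D.hs.kind D.hs.card
  have hne := D.ne
  -- a frame through the two points
  obtain ⟨c, hc⟩ : ∃ c, c = (φ.f X1.rep X2.rep)⁻¹ := ⟨_, rfl⟩
  have hc0 : c ≠ 0 := by rw [hc]; exact inv_ne_zero hne
  have h12 : φ.f X1.rep (c • X2.rep) = 1 := by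
    rw [map_smul, smul_eq_mul, hc, inv_mul_cancel₀ hne]
  have hs2 : φ.Sing (c • X2.rep) := by
    rw [hsing, hsmul, map_smul, (hsing _).1 D.s2, smul_zero, mul_zero]
  obtain ⟨b, hb, hb0, hb1⟩ := (h3 φ D.hs).1 _ _ D.s1 hs2 h12
  have hOv : Ov (InO ω b f) := by
    refine h4 φ f t X1 X2 D ω b hω hb ?_
    rw [hb0]
    exact Submodule.mem_span_singleton_self _
  -- the standard ovoid
  have hG : ∃ O, (O = oA ∨ O = oB) ∧ Good (InO ω b f) O := by
    rcases ov_class hOv with h | h
    · exact ⟨oA, Or.inl rfl, h⟩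
    · exact ⟨oB, Or.inr rfl, h⟩
  obtain ⟨O, hO, e0, e1, e2, e3, hok, hin⟩ := hG
  obtain ⟨hfr, hvv⟩ := (h3 φ D.hs).2.1 ω hω b hb e0 e1 e2 e3 hok
  obtain ⟨b', hb'⟩ : ∃ b' : Fin 6 → V,
    b' = ![b 0, b 1, vv ω b e0, vv ω b e1, vv ω b e2, vv ω b e3] := ⟨_, rfl⟩
  rw [← hb'] at hfr hvv
  have hb'0 : b' 0 = X1.rep := by rw [hb', ← hb0]; rfl
  have hb'1 : b' 1 = c • X2.rep := by rw [hb', ← hb1]; rfl
  have hinO : ∀ y ∈ O, InO ω b' f y := by
    intro y hy
    obtain ⟨g1, g2, g3, _⟩ := oAB hO hy
    obtain ⟨_, _, _, d, hd⟩ := hin y hy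
    refine ⟨g1, g2, g3, d, ?_⟩
    rw [hvv y g1 g2, hb'0, ← hb0]
    exact hd
  -- the search
  have main : ∀ b'' : Fin 6 → V, Fr φ b'' → b'' 0 = X1.rep → (t = 2 → b'' 1 = c • X2.rep) →
      (∀ y ∈ O, InO ω b'' f y) → ∀ B : List ℕ, (∀ n ∈ B, InC ω b'' f n) → Cfg (InC ω b'' f) t O B := by
    intro b'' hF h0 h1' hI B hB
    refine h5 φ f t X1 X2 D ω b'' hω hF ?_ ?_ O B hO hI hB
    · rw [h0]
      exact Submodule.mem_span_singleton_self _
    · intro ht
      rw [h1' ht]
      exact Submodule.smul_mem _ _ (Submodule.mem_span_singleton_self _)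
  by_cases ht : t = 2
  · have C := main b' hfr hb'0 (fun _ => hb'1) hinO [] (fun n hn => absurd hn List.not_mem_nil)
    subst ht
    rcases hO with rfl | rfl
    · exact cfg_false 60 tr2A chk2A C
    · exact cfg_false 60 tr2B chk2B C
  · have ht1 : t = 0 ∨ t = 1 := by
      have := D.le
      omega
    have hw : (1 : F) - ω ≠ 0 := sub_ne_zero.2 (Ne.symm hω.ne1)
    rcases hO with rfl | rfl
    · obtain ⟨_, _, _, c1, g1⟩ := hinO 24 (by decide)
      obtain ⟨_, _, _, c2, g2⟩ := hinO 1032 (by decide)
      obtain ⟨_, _, _, c3, g3⟩ := hinO 40 (by decide)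
      obtain ⟨m2, hm2⟩ : ∃ m2, m2 = (c1 - c2) / (1 - ω) := ⟨_, rfl⟩
      have hm2' : m2 * (1 - ω) = c1 - c2 := by rw [hm2, div_mul_cancel₀ _ hw]
      obtain ⟨b'', hF, k0, k2, k3, k4, k5⟩ := (h3 φ D.hs).2.2 b' hfr 0 (c1 - m2) m2 (c3 - (c1 - m2))
      have hB : ∀ n ∈ bA, InC ω b'' f n := by
        intro n hn
        simp only [bA, List.mem_cons, List.not_mem_nil, or_false] at hn
        rcases hn with rfl | rfl | rfl
        · refine inC_shift k2 k3 k4 k5 (by norm_num) (by decide) g1 ?_
          simp only [sh, cf, show Nat.testBit 24 2 = false by decide, show Nat.testBit 24 3 = true by decide,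
            show Nat.testBit 24 4 = true by decide, show Nat.testBit 24 5 = false by decide,
            show Nat.testBit 24 (2 + 6) = false by decide, show Nat.testBit 24 (3 + 6) = false by decide,
            show Nat.testBit 24 (4 + 6) = false by decide, show Nat.testBit 24 (5 + 6) = false by decide,
            if_true, if_false, Bool.false_eq_true]
          ring
        · refine inC_shift k2 k3 k4 k5 (by norm_num) (by decide) g2 ?_
          simp only [sh, cf, show Nat.testBit 1032 2 = false by decide, show Nat.testBit 1032 3 = true by decide,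
            show Nat.testBit 1032 4 = false by decide, show Nat.testBit 1032 5 = false by decide,
            show Nat.testBit 1032 (2 + 6) = false by decide, show Nat.testBit 1032 (3 + 6) = false by decide,
            show Nat.testBit 1032 (4 + 6) = true by decide, show Nat.testBit 1032 (5 + 6) = false by decide,
            if_true, if_false, Bool.false_eq_true]
          linear_combination -hm2'
        · refine inC_shift k2 k3 k4 k5 (by norm_num) (by decide) g3 ?_
          simp only [sh, cf, show Nat.testBit 40 2 = false by decide, show Nat.testBit 40 3 = true by decide,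
            show Nat.testBit 40 4 = false by decide, show Nat.testBit 40 5 = true by decide,
            show Nat.testBit 40 (2 + 6) = false by decide, show Nat.testBit 40 (3 + 6) = false by decide,
            show Nat.testBit 40 (4 + 6) = false by decide, show Nat.testBit 40 (5 + 6) = false by decide,
            if_true, if_false, Bool.false_eq_true]
          ring
      have C := main b'' hF (k0.trans hb'0) (fun h => absurd h ht)
        (fun y hy => inO_shift k0 k2 k3 k4 k5 (hinO y hy)) bA hB
      rcases ht1 with rfl | rfl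
      · exact cfg_false 60 tr0A chk0A C
      · exact cfg_false 60 tr1A chk1A C
    · obtain ⟨_, _, _, c1, g1⟩ := hinO 12 (by decide)
      obtain ⟨_, _, _, c2, g2⟩ := hinO 516 (by decide)
      obtain ⟨_, _, _, c3, g3⟩ := hinO 20 (by decide)
      obtain ⟨_, _, _, c4, g4⟩ := hinO 36 (by decide)
      obtain ⟨m1, hm1⟩ : ∃ m1, m1 = (c1 - c2) / (1 - ω) := ⟨_, rfl⟩
      have hm1' : m1 * (1 - ω) = c1 - c2 := by rw [hm1, div_mul_cancel₀ _ hw]
      obtain ⟨b'', hF, k0, k2, k3, k4, k5⟩ :=
        (h3 φ D.hs).2.2 b' hfr (c1 - m1) m1 (c3 - (c1 - m1)) (c4 - (c1 - m1))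
      have hB : ∀ n ∈ bB, InC ω b'' f n := by
        intro n hn
        simp only [bB, List.mem_cons, List.not_mem_nil, or_false] at hn
        rcases hn with rfl | rfl | rfl | rfl
        · refine inC_shift k2 k3 k4 k5 (by norm_num) (by decide) g1 ?_
          simp only [sh, cf, show Nat.testBit 12 2 = true by decide, show Nat.testBit 12 3 = true by decide,
            show Nat.testBit 12 4 = false by decide, show Nat.testBit 12 5 = false by decide,
            show Nat.testBit 12 (2 + 6) = false by decide, show Nat.testBit 12 (3 + 6) = false by decide,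
            show Nat.testBit 12 (4 + 6) = false by decide, show Nat.testBit 12 (5 + 6) = false by decide,
            if_true, if_false, Bool.false_eq_true]
          ring
        · refine inC_shift k2 k3 k4 k5 (by norm_num) (by decide) g2 ?_
          simp only [sh, cf, show Nat.testBit 516 2 = true by decide, show Nat.testBit 516 3 = false by decide,
            show Nat.testBit 516 4 = false by decide, show Nat.testBit 516 5 = false by decide,
            show Nat.testBit 516 (2 + 6) = false by decide, show Nat.testBit 516 (3 + 6) = true by decide,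
            show Nat.testBit 516 (4 + 6) = false by decide, show Nat.testBit 516 (5 + 6) = false by decide,
            if_true, if_false, Bool.false_eq_true]
          linear_combination -hm1'
        · refine inC_shift k2 k3 k4 k5 (by norm_num) (by decide) g3 ?_
          simp only [sh, cf, show Nat.testBit 20 2 = true by decide, show Nat.testBit 20 3 = false by decide,
            show Nat.testBit 20 4 = true by decide, show Nat.testBit 20 5 = false by decide,
            show Nat.testBit 20 (2 + 6) = false by decide, show Nat.testBit 20 (3 + 6) = false by decide,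
            show Nat.testBit 20 (4 + 6) = false by decide, show Nat.testBit 20 (5 + 6) = false by decide,
            if_true, if_false, Bool.false_eq_true]
          ring
        · refine inC_shift k2 k3 k4 k5 (by norm_num) (by decide) g4 ?_
          simp only [sh, cf, show Nat.testBit 36 2 = true by decide, show Nat.testBit 36 3 = false by decide,
            show Nat.testBit 36 4 = false by decide, show Nat.testBit 36 5 = true by decide,
            show Nat.testBit 36 (2 + 6) = false by decide, show Nat.testBit 36 (3 + 6) = false by decide,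
            show Nat.testBit 36 (4 + 6) = false by decide, show Nat.testBit 36 (5 + 6) = false by decide,
            if_true, if_false, Bool.false_eq_true]
          ring
      have C := main b'' hF (k0.trans hb'0) (fun h => absurd h ht)
        (fun y hy => inO_shift k0 k2 k3 k4 k5 (hinO y hy)) bB hB
      rcases ht1 with rfl | rfl
      · exact cfg_false 60 tr0B chk0B C
      · exact cfg_false 60 tr1B chk1B C

end Pool.Agent.Helper44.U4
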